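import Pool.Agent.Helper8.UC.Defs
import Pool.Agent.Helper8.DC.QB

/-!
Bound of the vector density by the squares of `φ` and `∇φ`.
-/

set_option autoImplicit false

open scoped Manifold ContDiff Topology
open MeasureTheory Set Filter

namespace Pool.Agent.Helper8.UC

open Pool.Agent.Helper8.DC

noncomputable section

theorem bound_vec (A : E4 → Fin 4 → R3) (U : Set E4) (hU : IsOpen U) (hA : ContDiffOn ℝ ∞ A U)
    (K : Set E4) (hK : IsCompact K) (hKU : K ⊆ U) :
    ∃ C : ℝ, 0 ≤ C ∧ ∀ y ∈ K, ∀ (φ : R3) (α : Fin 4 → R3),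
      ∑ l, |trip φ (Pi.single l 1) α (curv A y)| ≤
        C * (∑ a, φ a ^ 2 + ∑ m, ∑ a, α m a ^ 2) := by
  have hc := qb_curv (V := R3 × (Fin 4 → R3)) A U hU hA K hKU
  have hp : ∀ a : Fin 3, ContinuousOn (fun p : E4 × (R3 × (Fin 4 → R3)) => p.2.1 a)
      (K ×ˢ Set.univ) := fun a => (by fun_prop : Continuous
        (fun p : E4 × (R3 × (Fin 4 → R3)) => p.2.1 a)).continuousOn
  have ha : ∀ (a : Fin 3) (m : Fin 4), ContinuousOn
      (fun p : E4 × (R3 × (Fin 4 → R3)) => p.2.2 m a) (K ×ˢ Set.univ) := fun a m =>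
        (by fun_prop : Continuous (fun p : E4 × (R3 × (Fin 4 → R3)) => p.2.2 m a)).continuousOn
  have hw : ∀ (l : Fin 4) (a c : Fin 3), ContinuousOn (fun p : E4 × (R3 × (Fin 4 → R3)) =>
      wedge3 (Pi.single l 1) (cm1 p.2.2 a) (cmp (curv A p.1) c)) (K ×ˢ Set.univ) := fun l a c =>
    qb_wedge3 (a := fun _ => Pi.single l 1) (fun _ => continuousOn_const) (fun m => ha a m)
      (fun p q => hc p q c)
  obtain ⟨C, hC0, hC⟩ := qb_compact (V := R3 × (Fin 4 → R3)) K hK
    (fun y v => -∑ l, |trip v.1 (Pi.single l 1) v.2 (curv A y)|)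
    (fun _ v => ∑ a, v.1 a ^ 2 + ∑ m, ∑ a, v.2 m a ^ 2)
    (by
      refine ContinuousOn.neg (continuousOn_finsetSum _ fun l _ => ContinuousOn.abs ?_)
      unfold trip
      exact (((hp 0).mul ((hw l 1 2).sub (hw l 2 1))).add
        ((hp 1).mul ((hw l 2 0).sub (hw l 0 2)))).add
        ((hp 2).mul ((hw l 0 1).sub (hw l 1 0))))
    (by fun_prop)
    (fun y t v => by
      have h : ∀ l, trip (t • v.1) (Pi.single l 1) (t • v.2) (curv A y) =
          t ^ 2 * trip v.1 (Pi.single l 1) v.2 (curv A y) := by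
        intro l
        simp only [trip, cm1, wedge3, wedge, wed, Pi.smul_apply, smul_eq_mul]
        ring
      simp only [Prod.smul_fst, Prod.smul_snd, h, abs_mul, abs_pow, sq_abs, mul_neg,
        Finset.mul_sum])
    (fun y t v => by
      simp only [Prod.smul_fst, Prod.smul_snd, Pi.smul_apply, smul_eq_mul, mul_pow,
        Finset.mul_sum, mul_add])
    (fun y _ v => by positivity)
    (fun y _ v hv h0 => by
      exfalso
      apply hv
      have h1 : (0 : ℝ) ≤ ∑ a, v.1 a ^ 2 := by positivity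
      have h2 : (0 : ℝ) ≤ ∑ m, ∑ a, v.2 m a ^ 2 := by positivity
      have h3 : ∑ a, v.1 a ^ 2 = 0 := by linarith
      have h4 : ∑ m, ∑ a, v.2 m a ^ 2 = 0 := by linarith
      have h5 := (Finset.sum_eq_zero_iff_of_nonneg (fun a _ => sq_nonneg (v.1 a))).1 h3
      have h6 := (Finset.sum_eq_zero_iff_of_nonneg
        (fun m _ => Finset.sum_nonneg fun a _ => sq_nonneg (v.2 m a))).1 h4
      refine Prod.ext ?_ ?_
      · funext a
        exact pow_eq_zero_iff (two_ne_zero) |>.1 (h5 a (Finset.mem_univ a))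
      · funext m a
        have h7 := (Finset.sum_eq_zero_iff_of_nonneg (fun a _ => sq_nonneg (v.2 m a))).1
          (h6 m (Finset.mem_univ m))
        exact pow_eq_zero_iff (two_ne_zero) |>.1 (h7 a (Finset.mem_univ a)))
  refine ⟨C, hC0, fun y hy φ α => ?_⟩
  have := hC y hy (φ, α)
  simp only at this
  linarith

theorem norm_toLp_le (v : Fin 4 → ℝ) : ‖(WithLp.toLp 2 v : E4)‖ ≤ ∑ l, |v l| := by
  rw [EuclideanSpace.norm_eq]
  refine Real.sqrt_le_iff.2 ⟨by positivity, ?_⟩
  simp only [Real.norm_eq_abs]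
  exact Finset.sum_sq_le_sq_sum_of_nonneg fun i _ => abs_nonneg _

theorem cov_smooth {U : Set E4} (hU : IsOpen U) {A : E4 → Fin 4 → R3} {φ : E4 → R3}
    (hA : ContDiffOn ℝ ∞ A U) (hφ : ContDiffOn ℝ ∞ φ U) (m : Fin 4) (a : Fin 3) :
    ContinuousOn (fun y => cov A φ y m a) U := by
  exact (contDiffOn_pi.mp (sm_cov hU hA hφ m) a).continuousOn

/-- Summability of `∫ |vec|` from that of `∫ |φ|²` and `∫ |∇φ|²`. -/
theorem summable_vec (A : E4 → Fin 4 → R3) (U : Set E4) (hU : IsOpen U) (hA : ContDiffOn ℝ ∞ A U)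
    (K : Set E4) (hK : IsCompact K) (hKU : K ⊆ U) {S : Type} (φ : S → E4 → R3)
    (hφ : ∀ x, ContDiffOn ℝ ∞ (φ x) U)
    (h1 : Summable fun x => ∫ y in K, ∑ a, φ x y a ^ 2)
    (h2 : Summable fun x => ∫ y in K, ∑ m, ∑ a, cov A (φ x) y m a ^ 2) :
    Summable fun x => ∫ y in K, ‖(WithLp.toLp 2 (vec A (φ x) y) : E4)‖ := by
  obtain ⟨C, hC0, hC⟩ := bound_vec A U hU hA K hK hKU
  have i1 : ∀ x, IntegrableOn (fun y => ∑ a, φ x y a ^ 2) K := fun x =>
    (continuousOn_finsetSum _ fun a _ =>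
      (((contDiffOn_pi.mp (hφ x) a).continuousOn.mono hKU).pow 2)).integrableOn_compact hK
  have i2 : ∀ x, IntegrableOn (fun y => ∑ m, ∑ a, cov A (φ x) y m a ^ 2) K := fun x =>
    (continuousOn_finsetSum _ fun m _ => continuousOn_finsetSum _ fun a _ =>
      (((cov_smooth hU hA (hφ x) m a).mono hKU).pow 2)).integrableOn_compact hK
  refine Summable.of_nonneg_of_le (fun x => integral_nonneg fun y => norm_nonneg _)
    (fun x => ?_) ((h1.add h2).mul_left C)
  rw [← integral_add (i1 x) (i2 x), ← integral_const_mul]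
  refine setIntegral_mono_on ?_ (((i1 x).add (i2 x)).const_mul C) hK.measurableSet
    (fun y hy => ?_)
  · have hc : ContinuousOn (fun y => (WithLp.toLp 2 (vec A (φ x) y) : E4)) U := by
      have h : ContDiffOn ℝ ∞ (fun y => (WithLp.toLp 2 (vec A (φ x) y) : E4)) U := by
        rw [contDiffOn_euclidean]
        intro l
        exact sm_vec hU hA (hφ x) l
      exact h.continuousOn
    exact ((hc.mono hKU).norm).integrableOn_compact hK
  · exact (norm_toLp_le _).trans (hC y hy (φ x y) (cov A (φ x) y))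

end

end Pool.Agent.Helper8.UC
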