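import Pool.Agent.Helper8.DC.Main

/-!
Transformation of the vector density under a change of charts, for one sheet.
-/

set_option autoImplicit false

open scoped Manifold ContDiff

namespace Pool.Agent.Helper8.UC

open Pool.Agent.Helper8.DC

noncomputable section

variable {X : Type} [TopologicalSpace X] [ChartedSpace E4 X] [IsManifold (𝓡 4) ∞ X]

theorem cov_tr1 (P : Bundle X) (i j : P.ι) (y : E4) (hy : y ∈ P.ov i j) (u v : E4 → R3)
    (hψ : DifferentiableAt ℝ u (P.tr i j y)) (hφ : DifferentiableAt ℝ v y)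
    (hev0 : ∀ᶠ z in nhds y, u (P.tr i j z) = (P.g i j z).mulVec (v z)) (m : Fin 4) :
    ∑ n, jac P i j y n m • cov (P.A i) u (P.tr i j y) n =
      (P.g i j y).mulVec (cov (P.A j) v y m) := by
  have hopen := ov_open P i j
  have hov := hopen.mem_nhds hy
  have hτ : DifferentiableAt ℝ (P.tr i j) y :=
    ((tr_smooth P i j).contDiffAt hov).differentiableAt (by simp)
  have hφa : ∀ a, DifferentiableAt ℝ (fun z => v z a) y := fun a =>
    (differentiableAt_pi.1 hφ) a
  have hg : ∀ a b, DifferentiableAt ℝ (fun z => P.g i j z a b) y := fun a b =>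
    ((P.g_smooth i j a b).contDiffAt hov).differentiableAt (by simp)
  set τ := P.tr i j with hτdef
  set B : R3 := ∑ n, (pd m τ y) n • P.A i (τ y) n with hB
  have hL : ∑ n, jac P i j y n m • cov (P.A i) u (τ y) n
      = pd m (fun z => u (τ z)) y + crossProduct B (u (τ y)) := by
    rw [pi_chain (ψ := u) hτ hψ m]
    rw [hB, map_sum, LinearMap.sum_apply, ← Finset.sum_add_distrib]
    refine Finset.sum_congr rfl fun n _ => ?_
    unfold cov jac
    rw [smul_add, map_smul, LinearMap.smul_apply]
  rw [hL]
  have hcomp : pd m (fun z => (P.g i j z).mulVec (v z)) y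
      = pd m (fun z => (P.g i j z).mulVec (v y)) y
        + (P.g i j y).mulVec (pd m v y) := by
    have d1 : DifferentiableAt ℝ (fun z => (P.g i j z).mulVec (v z)) y := by
      refine differentiableAt_pi.2 fun a => ?_
      simp only [Matrix.mulVec, dotProduct]
      exact DifferentiableAt.fun_sum fun b _ => (hg a b).fun_mul (hφa b)
    have d2 : DifferentiableAt ℝ (fun z => (P.g i j z).mulVec (v y)) y := by
      refine differentiableAt_pi.2 fun a => ?_
      simp only [Matrix.mulVec, dotProduct]
      exact DifferentiableAt.fun_sum fun b _ => (hg a b).fun_mul (differentiableAt_const _)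
    funext a
    rw [ph_pd_comp d1, Pi.add_apply, ph_pd_comp d2]
    simp only [Matrix.mulVec, dotProduct]
    rw [pi_pd_sum _ (fun b _ => (hg a b).fun_mul (hφa b)),
      pi_pd_sum _ (fun b _ => (hg a b).fun_mul (differentiableAt_const _)),
      ← Finset.sum_add_distrib]
    refine Finset.sum_congr rfl fun b _ => ?_
    rw [ph_pd_mul (hg a b) (hφa b), ph_pd_mul (hg a b) (differentiableAt_const _),
      ph_pd_comp hφ]
    simp [pd]
  have hD : pd m (fun z => u (τ z)) y = pd m (fun z => (P.g i j z).mulVec (v z)) y := by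
    unfold pd
    rw [Filter.EventuallyEq.fderiv_eq hev0]
  have hval : u (τ y) = (P.g i j y).mulVec (v y) := hev0.self_of_nhds
  rw [hD, hval, hcomp]
  have hc := P.compat i j y hy m (v y)
  unfold cov
  rw [Matrix.mulVec_add, ← hc]
  have hB' : (∑ n, (pd m (fun z => (P.c i) ((P.c j).symm z)) y) n •
      P.A i ((P.c i) ((P.c j).symm y)) n) = B := rfl
  rw [hB']
  abel

theorem vec_tr1 (P : Bundle X) (i j : P.ι) (y : E4) (hy : y ∈ P.ov i j) (u v : E4 → R3)
    (hψ : DifferentiableAt ℝ u (P.tr i j y)) (hφ : DifferentiableAt ℝ v y)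
    (hev0 : ∀ᶠ z in nhds y, u (P.tr i j z) = (P.g i j z).mulVec (v z)) (n : Fin 4) :
    ∑ l, jac P i j y n l * vec (P.A j) v y l =
      (jac P i j y).det * vec (P.A i) u (P.tr i j y) n := by
  set T := jac P i j y with hT
  set g := P.g i j y with hg
  have hgm : g ∈ Matrix.specialOrthogonalGroup (Fin 3) ℝ := P.g_mem i j y hy
  have e1 : T.det * trip (u (P.tr i j y)) (Pi.single n 1)
      (cov (P.A i) u (P.tr i j y)) (curv (P.A i) (P.tr i j y)) =
      trip (v y) (fun m => T n m) (cov (P.A j) v y) (curv (P.A j) y) := by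
    rw [← trip_pull T _ _ _ _ (skew_curv _ _)]
    have a1 : (fun m => ∑ n', T n' m * (Pi.single n 1 : Fin 4 → ℝ) n') = fun m => T n m := by
      funext m; simp [Pi.single_apply]
    have a2 : (fun m => ∑ n', T n' m • cov (P.A i) u (P.tr i j y) n') =
        fun m => g.mulVec (cov (P.A j) v y m) := by
      funext m; exact cov_tr1 P i j y hy u v hψ hφ hev0 m
    have a3 : (fun l m => ∑ n', ∑ p, (T n' l * T p m) • curv (P.A i) (P.tr i j y) n' p) =
        fun l m => g.mulVec (curv (P.A j) y l m) := by
      funext l m; exact curv_tr P i j y hy l m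
    have hval : u (P.tr i j y) = g.mulVec (v y) := hev0.self_of_nhds
    rw [a1, a2, a3, hval, trip_rot g hgm]
  unfold vec
  rw [e1, trip_lin_form]

end

end Pool.Agent.Helper8.UC
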