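import Pool.Agent.Helper8.UC.Cac
import Pool.Agent.Helper81.UC.Cov
import Pool.Agent.Helper8.UC.Tr
import Pool.Agent.Helper8.UC.Bd

/-!
Square integrable closed forms on coverings: the theorem.
-/

set_option autoImplicit false

open scoped Manifold ContDiff Topology
open MeasureTheory Set Filter

namespace Pool.Agent.Helper8.UC

open Pool.Agent.Helper8.DC
open Pool.Agent.Helper81.UC (core_cov)
open Pool.Agent.Helper64.DC (dvg contDiffOn_symm integrableOn_of_zero isCompact_K K_subset
  notMem_tsupport_of_notMem)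

noncomputable section

section Stokes

variable {X : Type} [TopologicalSpace X] [T2Space X] [CompactSpace X] [ChartedSpace E4 X]
  [IsManifold 𝓘(ℝ, E4) ∞ X]

/-- Stokes on a covering, finitely many charts. -/
theorem stokes_cov_aux {ι : Type} [Fintype ι] (c : ι → OpenPartialHomeomorph X E4)
    (hc : ∀ i, c i ∈ IsManifold.maximalAtlas 𝓘(ℝ, E4) ∞ X)
    (ρ : ι → X → ℝ) (hρ : ∀ i, ContMDiff 𝓘(ℝ, E4) 𝓘(ℝ, ℝ) ∞ (ρ i))
    (hρs : ∀ i, tsupport (ρ i) ⊆ (c i).source) (hρ1 : ∀ x, ∑ i, ρ i x = 1)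
    (hρ0 : ∀ i x, 0 ≤ ρ i x)
    {S : Type} [Countable S] (σ : ι → ι → E4 → Equiv.Perm S)
    (W : ι → S → E4 → E4) (hW : ∀ i x, ContDiffOn ℝ 1 (W i x) (c i).target)
    (hcompat : ∀ i j, ∀ y ∈ (c j).target, (c j).symm y ∈ (c i).source →
      0 < (fderiv ℝ (c i ∘ (c j).symm) y).det ∧ ∀ x,
      fderiv ℝ (c i ∘ (c j).symm) y (W j x y)
        = (fderiv ℝ (c i ∘ (c j).symm) y).det • W i (σ i j y x) (c i ((c j).symm y)))
    (hsum : ∀ i, ∀ K ⊆ (c i).target, IsCompact K → Summable fun x => ∫ y in K, ‖W i x y‖)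
    (hnn : ∀ i x, ∀ y ∈ (c i).target, 0 ≤ dvg (W i x) y) (i : ι) (x : S) (y : E4)
    (hy : y ∈ (c i).target) : ρ i ((c i).symm y) * dvg (W i x) y = 0 := by
  obtain ⟨hS, h0⟩ := core_cov c hc ρ hρ hρs hρ1 σ W hW hcompat hsum
  have hI : ∀ i x, 0 ≤ ∫ y in (c i).target, ρ i ((c i).symm y) * dvg (W i x) y := fun i x =>
    setIntegral_nonneg (c i).open_target.measurableSet
      fun y hy => mul_nonneg (hρ0 _ _) (hnn i x y hy)
  have hIi : ∑' x, ∫ y in (c i).target, ρ i ((c i).symm y) * dvg (W i x) y = 0 :=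
    (Finset.sum_eq_zero_iff_of_nonneg (fun i _ => tsum_nonneg (hI i))).1 h0 i (Finset.mem_univ _)
  have hIix : ∫ y in (c i).target, ρ i ((c i).symm y) * dvg (W i x) y = 0 := by
    have h1 := (hS i).le_tsum x (fun z _ => hI i z)
    rw [hIi] at h1
    exact le_antisymm h1 (hI i x)
  set U := (c i).target with hU
  have hUo : IsOpen U := (c i).open_target
  set K := c i '' tsupport (ρ i) with hK
  have hKc : IsCompact K := isCompact_K c ρ hρs i
  have hKU : K ⊆ U := K_subset c ρ hρs i
  set h : E4 → ℝ := fun y => ρ i ((c i).symm y) * dvg (W i x) y with hh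
  have hcf : ContinuousOn (fderiv ℝ (W i x)) U :=
    (hW i x).continuousOn_fderiv_of_isOpen hUo le_rfl
  have htc : Continuous (fun A : E4 →L[ℝ] E4 => LinearMap.trace ℝ E4 (A : E4 →ₗ[ℝ] E4)) :=
    ((LinearMap.trace ℝ E4).comp (ContinuousLinearMap.coeLM ℝ)).continuous_of_finiteDimensional
  have hcont : ContinuousOn h U :=
    (contDiffOn_symm (hc i) (hρ i)).continuousOn.mul (htc.comp_continuousOn hcf)
  have hint : IntegrableOn h U := by
    refine integrableOn_of_zero hUo hKc hKU hcont ?_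
    intro z hz
    have : ρ i ((c i).symm z) = 0 :=
      image_eq_zero_of_notMem_tsupport (f := ρ i) (notMem_tsupport_of_notMem c ρ hz.1 hz.2)
    show ρ i ((c i).symm z) * dvg (W i x) z = 0
    rw [this, zero_mul]
  by_contra hne
  have hpos : 0 < h y := lt_of_le_of_ne (mul_nonneg (hρ0 _ _) (hnn i x y hy)) (Ne.symm hne)
  have hev : ∀ᶠ z in 𝓝 y, 0 < h z := by
    have := (hcont y hy).continuousAt (hUo.mem_nhds hy)
    exact this.eventually (lt_mem_nhds hpos)
  have hsupp : 0 < (volume : Measure E4) ({z | 0 < h z} ∩ U) := by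
    obtain ⟨V, hVs, hVo, hyV⟩ := _root_.mem_nhds_iff.1 (inter_mem hev (hUo.mem_nhds hy))
    exact (hVo.measure_pos volume ⟨y, hyV⟩).trans_le (measure_mono hVs)
  have hgt : 0 < ∫ z in U, h z := by
    rw [setIntegral_pos_iff_support_of_nonneg_ae ?_ hint]
    · refine hsupp.trans_le (measure_mono ?_)
      intro z hz
      exact ⟨ne_of_gt hz.1, hz.2⟩
    · refine (ae_restrict_iff' hUo.measurableSet).2 (Eventually.of_forall fun z hz => ?_)
      exact mul_nonneg (hρ0 _ _) (hnn i x z hz)
  exact hgt.ne' hIix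

/-- Stokes on a covering of a closed manifold: a square integrable family of vector densities with
nonnegative divergence is divergence free. -/
theorem stokes_cov {ι : Type} (c : ι → OpenPartialHomeomorph X E4)
    (hc : ∀ i, c i ∈ IsManifold.maximalAtlas 𝓘(ℝ, E4) ∞ X)
    (cover : ∀ x, ∃ i, x ∈ (c i).source)
    {S : Type} [Countable S] (σ : ι → ι → E4 → Equiv.Perm S)
    (W : ι → S → E4 → E4) (hW : ∀ i x, ContDiffOn ℝ 1 (W i x) (c i).target)
    (hcompat : ∀ i j, ∀ y ∈ (c j).target, (c j).symm y ∈ (c i).source →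
      0 < (fderiv ℝ (c i ∘ (c j).symm) y).det ∧ ∀ x,
      fderiv ℝ (c i ∘ (c j).symm) y (W j x y)
        = (fderiv ℝ (c i ∘ (c j).symm) y).det • W i (σ i j y x) (c i ((c j).symm y)))
    (hsum : ∀ i, ∀ K ⊆ (c i).target, IsCompact K → Summable fun x => ∫ y in K, ‖W i x y‖)
    (hnn : ∀ i x, ∀ y ∈ (c i).target, 0 ≤ dvg (W i x) y) :
    ∀ i x, ∀ y ∈ (c i).target, dvg (W i x) y = 0 := by
  classical
  intro i0 z0 y0 hy0
  set x0 : X := (c i0).symm y0 with hx0
  have hx0s : x0 ∈ (c i0).source := (c i0).map_target hy0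
  let U : ι → Set X := fun i => if i = i0 then (c i).source else (c i).source \ {x0}
  have hUo : ∀ i, IsOpen (U i) := by
    intro i
    by_cases h : i = i0
    · simp only [U, h, if_true]; exact (c i0).open_source
    · simp only [U, h, if_false]; exact (c i).open_source.sdiff isClosed_singleton
  have hUs : ∀ i, U i ⊆ (c i).source := by
    intro i
    by_cases h : i = i0
    · simp only [U, h, if_true]; exact subset_rfl
    · simp only [U, h, if_false]; exact sdiff_subset
  have hUc : (univ : Set X) ⊆ ⋃ i, U i := by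
    intro x _
    by_cases hx : x = x0
    · refine mem_iUnion.2 ⟨i0, ?_⟩
      simp only [U, if_true, hx]; exact hx0s
    · obtain ⟨i, hi⟩ := cover x
      refine mem_iUnion.2 ⟨i, ?_⟩
      by_cases h : i = i0
      · simp only [U, h, if_true]; exact h ▸ hi
      · simp only [U, h, if_false]; exact ⟨hi, hx⟩
  obtain ⟨f, hf⟩ := SmoothPartitionOfUnity.exists_isSubordinate 𝓘(ℝ, E4) isClosed_univ U hUo hUc
  have hfin : {i | (Function.support (f i)).Nonempty}.Finite :=
    f.locallyFinite.finite_nonempty_of_compact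
  let T : Finset ι := insert i0 hfin.toFinset
  have hT : ∀ i, i ∉ T → ∀ x, f i x = 0 := by
    intro i hi x
    by_contra h
    apply hi
    refine Finset.mem_insert_of_mem ?_
    rw [Set.Finite.mem_toFinset]
    exact ⟨x, h⟩
  let c' : T → OpenPartialHomeomorph X E4 := fun i => c i
  let ρ : T → X → ℝ := fun i => f i
  have hsum1 : ∀ x, ∑ i, ρ i x = 1 := by
    intro x
    have h1 := f.sum_eq_one (mem_univ x)
    rw [finsum_eq_sum_of_support_subset (s := T)] at h1
    · rw [← h1]
      exact Finset.sum_coe_sort T (fun i => f i x)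
    · intro i hi
      by_contra h
      exact hi (hT i h x)
  have hsub : ∀ i : T, tsupport (ρ i) ⊆ (c' i).source := fun i => (hf i).trans (hUs i)
  have key := stokes_cov_aux c' (fun i => hc i) ρ (fun i => (f i).contMDiff) hsub hsum1
    (fun i x => f.nonneg i x) (fun i j => σ i j) (fun i => W i) (fun i => hW i)
    (fun i j y hy hx => hcompat i j y hy hx) (fun i => hsum i)
    (fun i x y hy => hnn i x y hy) ⟨i0, Finset.mem_insert_self _ _⟩ z0 y0 hy0
  have hρ1 : f i0 x0 = 1 := by
    have h1 := f.sum_eq_one (mem_univ x0)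
    rw [finsum_eq_single _ i0] at h1
    · exact h1
    · intro i hi
      have hx : x0 ∉ tsupport (f i) := by
        intro h
        have := hf i h
        simp only [U, hi, if_false] at this
        exact this.2 rfl
      exact image_eq_zero_of_notMem_tsupport hx
  have h2 : f i0 x0 * dvg (W i0 z0) y0 = 0 := key
  rwa [hρ1, one_mul] at h2

end Stokes

variable {X : Type} [TopologicalSpace X] [ChartedSpace E4 X] [IsManifold (𝓡 4) ∞ X]

/-- The vector density on the sheet `x`. -/
def wC (P : Bundle X) {S : Type} {C : Cov P S} (φ : Form P C) (i : P.ι) (x : S) (y : E4) : E4 :=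
  WithLp.toLp 2 (vec (P.A i) (φ.s i x) y)

theorem wC_comp_smooth (P : Bundle X) {S : Type} {C : Cov P S} (φ : Form P C) (i : P.ι) (x : S)
    (l : Fin 4) : ContDiffOn ℝ ∞ (fun y => vec (P.A i) (φ.s i x) y l) (P.c i).target :=
  sm_vec (P.c i).open_target (P.A_smooth i) (φ.smooth i x) l

theorem wC_smooth (P : Bundle X) {S : Type} {C : Cov P S} (φ : Form P C) (i : P.ι) (x : S) :
    ContDiffOn ℝ ∞ (wC P φ i x) (P.c i).target := by
  rw [contDiffOn_euclidean]
  intro l
  exact wC_comp_smooth P φ i x l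

theorem dvg_wC (P : Bundle X) {S : Type} {C : Cov P S} (φ : Form P C) (i : P.ι) (x : S) (y : E4)
    (hy : y ∈ (P.c i).target) :
    dvg (wC P φ i x) y = quad (cov (P.A i) (φ.s i x) y) (curv (P.A i) y) +
      rest (φ.s i x y) (curv (P.A i) y) := by
  unfold dvg
  rw [trace_eq, ← div_vec (P.A i) (φ.s i x) _ (P.c i).open_target (P.A_smooth i) (φ.smooth i x) y hy]
  refine Finset.sum_congr rfl fun l _ => ?_
  have hw : DifferentiableAt ℝ (wC P φ i x) y :=
    ((wC_smooth P φ i x).contDiffAt ((P.c i).open_target.mem_nhds hy)).differentiableAt (by simp)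
  have := (EuclideanSpace.proj (𝕜 := ℝ) l : E4 →L[ℝ] ℝ).hasFDerivAt.comp y hw.hasFDerivAt
  unfold pd
  have h2 : (fun z => vec (P.A i) (φ.s i x) z l) =
      (EuclideanSpace.proj (𝕜 := ℝ) l : E4 →L[ℝ] ℝ) ∘ (wC P φ i x) := by
    funext z; rfl
  rw [h2, this.fderiv]
  rfl

/-- Square integrable closed forms: `φ ∇φ` is integrable. -/
theorem summable_wC (P : Bundle X) (hP : P.PositiveDefinite) {S : Type} {C : Cov P S}
    (φ : Form P C) (hφ : φ.Closed) (hL : φ.SquareIntegrable) (i : P.ι) (K : Set E4)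
    (hKU : K ⊆ (P.c i).target) (hK : IsCompact K) :
    Summable fun x => ∫ y in K, ‖wC P φ i x y‖ := by
  obtain ⟨K', hK', hK'U, hKK', C', hC0, hC⟩ := caccioppoli (P.A i) _ (P.c i).open_target
    (P.A_smooth i) (hP i) K hK hKU
  refine summable_vec (P.A i) _ (P.c i).open_target (P.A_smooth i) K hK hKU (φ.s i) (φ.smooth i)
    (hL i K hKU hK) ?_
  exact Summable.of_nonneg_of_le
    (fun x => integral_nonneg fun y => Finset.sum_nonneg fun m _ =>
      Finset.sum_nonneg fun a _ => sq_nonneg _)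
    (fun x => hC (φ.s i x) (φ.smooth i x) (hφ i x)) ((hL i K' hK'U hK').mul_left C')

theorem main [T2Space X] [CompactSpace X] (P : Bundle X) (hP : P.PositiveDefinite)
    (hpin : P.IsPinched) {S : Type} [Countable S] (C : Cov P S) (φ : Form P C) (hφ : φ.Closed)
    (hL : φ.SquareIntegrable) : ∀ i x, ∀ y ∈ (P.c i).target, φ.s i x y = 0 := by
  have hq : ∀ i x, ∀ y ∈ (P.c i).target,
      0 ≤ quad (cov (P.A i) (φ.s i x) y) (curv (P.A i) y) := by
    intro i x y hy
    exact quad_nonneg _ (skew_curv _ _) (hP i y hy) (hpin i y hy) _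
      (constr_of_closed _ _ _ (P.c i).open_target (P.A_smooth i) (φ.smooth i x) y hy
        (hφ i x y hy))
  have hr : ∀ i x, ∀ y ∈ (P.c i).target, φ.s i x y ≠ 0 →
      0 < rest (φ.s i x y) (curv (P.A i) y) := by
    intro i x y hy h
    exact rest_pos _ (skew_curv _ _) (hP i y hy) _ h
  have hr0 : ∀ i x, ∀ y ∈ (P.c i).target, 0 ≤ rest (φ.s i x y) (curv (P.A i) y) := by
    intro i x y hy
    by_cases h : φ.s i x y = 0
    · rw [h]; simp [rest]
    · exact (hr i x y hy h).le
  have hnn : ∀ i x, ∀ y ∈ (P.c i).target, 0 ≤ dvg (wC P φ i x) y := by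
    intro i x y hy
    rw [dvg_wC P φ i x y hy]
    exact add_nonneg (hq i x y hy) (hr0 i x y hy)
  have hcompat : ∀ i j, ∀ y ∈ (P.c j).target, (P.c j).symm y ∈ (P.c i).source →
      0 < (fderiv ℝ (P.c i ∘ (P.c j).symm) y).det ∧ ∀ x,
      fderiv ℝ (P.c i ∘ (P.c j).symm) y (wC P φ j x y)
        = (fderiv ℝ (P.c i ∘ (P.c j).symm) y).det •
          wC P φ i (C.σ i j y x) (P.c i ((P.c j).symm y)) := by
    intro i j y hy hy2
    have hyo : y ∈ P.ov i j := ⟨hy, hy2⟩
    rw [det_eq]
    refine ⟨det_pos P hP i j y hyo, fun x => ?_⟩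
    have hlin : fderiv ℝ (P.c i ∘ (P.c j).symm) y (wC P φ j x y) =
        ∑ l, vec (P.A j) (φ.s j x) y l • pd l (P.tr i j) y := by
      have h1 : wC P φ j x y =
          ∑ l, vec (P.A j) (φ.s j x) y l • EuclideanSpace.single l (1 : ℝ) := by
        ext k
        simp [wC, Finset.sum_apply, Pi.single_apply]
      rw [h1, map_sum]
      refine Finset.sum_congr rfl fun l _ => ?_
      rw [map_smul]
      rfl
    rw [hlin]
    ext n
    have hu : DifferentiableAt ℝ (φ.s i (C.σ i j y x)) (P.tr i j y) :=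
      ((φ.smooth i _).contDiffAt
        ((P.c i).open_target.mem_nhds (tr_mem P i j y hyo))).differentiableAt (by simp)
    have hv : DifferentiableAt ℝ (φ.s j x) y :=
      ((φ.smooth j x).contDiffAt ((P.c j).open_target.mem_nhds hy)).differentiableAt (by simp)
    have hev : ∀ᶠ z in 𝓝 y, φ.s i (C.σ i j y x) (P.tr i j z) =
        (P.g i j z).mulVec (φ.s j x z) := by
      filter_upwards [(ov_open P i j).mem_nhds hyo, C.σ_const i j y hyo] with z hz hσ
      rw [← φ.compat i j z hz x, hσ]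
    have := vec_tr1 P i j y hyo _ _ hu hv hev n
    simp only [PiLp.smul_apply, smul_eq_mul, wC, WithLp.ofLp_sum, Finset.sum_apply]
    refine Eq.trans ?_ this
    refine Finset.sum_congr rfl fun l _ => ?_
    simp only [jac]
    rw [mul_comm]
  have hz := stokes_cov P.c P.c_mem P.cover C.σ (wC P φ)
    (fun i x => (wC_smooth P φ i x).of_le (by simp)) hcompat
    (fun i K hKU hK => summable_wC P hP φ hφ hL i K hKU hK) hnn
  intro i x y hy
  have h0 := hz i x y hy
  rw [dvg_wC P φ i x y hy] at h0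
  by_contra hne
  have hpos := add_pos_of_nonneg_of_pos (hq i x y hy) (hr i x y hy hne)
  exact absurd h0 hpos.ne'

end

end Pool.Agent.Helper8.UC
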