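import Pool.Agent.Helper98.UC.QuadB
import Pool.Agent.Helper33.UC.Div
import Pool.Agent.Helper64.DC.Stokes
import Pool.Agent.Helper8.DC.QJ

/-!
The elliptic estimate (Caccioppoli inequality) for closed forms.
-/

set_option autoImplicit false

open scoped Manifold ContDiff Topology
open MeasureTheory Set Filter

namespace Pool.Agent.Helper8.UC

open Pool.Agent.Helper8.DC
open Pool.Agent.Helper33.UC (div_vecB trip_le exists_bound sm_adjF single_le)
open Pool.Agent.Helper98.UC (bound_quadB)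
open Pool.Agent.Helper64.DC (contDiff_of_zero integral_fderiv_eq_zero)

noncomputable section

/-- The pointwise inequality. -/
theorem cac_point {k c T C1 M s S p D0 E : ℝ} (hk0 : 0 ≤ k) (hk1 : k ≤ 1) (hc : 0 < c)
    (hC1 : 0 ≤ C1) (hM : 0 ≤ M) (hs : 0 ≤ s) (hS : 0 ≤ S) (hsp : s ^ 2 ≤ 3 * p)
    (hST : S ^ 2 ≤ 12 * T) (hD : c * T - C1 * s * (s + S) ≤ D0) (hE : |E| ≤ M * s * S) :
    c / 2 * (k ^ 2 * T) ≤ k ^ 2 * D0 + 2 * k * E +
      (3 * C1 + 18 * (C1 + 2 * M) ^ 2 / c) * p := by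
  have hp : 0 ≤ p := by nlinarith [sq_nonneg s]
  have h1 : k ^ 2 * (c * T - C1 * s * (s + S)) ≤ k ^ 2 * D0 :=
    mul_le_mul_of_nonneg_left hD (sq_nonneg k)
  have h2 : -(2 * k * (M * s * S)) ≤ 2 * k * E := by
    have := (abs_le.1 hE).1
    nlinarith [mul_le_mul_of_nonneg_left this (by positivity : (0 : ℝ) ≤ 2 * k)]
  have hk2 : k ^ 2 ≤ k := by nlinarith
  have hk21 : k ^ 2 ≤ 1 := by nlinarith
  have h3 : k ^ 2 * (C1 * s * s) ≤ 3 * C1 * p := by
    have a1 : k ^ 2 * (C1 * s * s) ≤ 1 * (C1 * s * s) :=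
      mul_le_mul_of_nonneg_right hk21 (by positivity)
    have a2 : C1 * s ^ 2 ≤ C1 * (3 * p) := mul_le_mul_of_nonneg_left hsp hC1
    nlinarith
  have h4 : k ^ 2 * (C1 * s * S) ≤ k * (C1 * s * S) :=
    mul_le_mul_of_nonneg_right hk2 (by positivity)
  have h5 : k * ((C1 + 2 * M) * s * S) ≤ c / 24 * (k * S) ^ 2 +
      6 / c * ((C1 + 2 * M) * s) ^ 2 := by
    have e : c / 24 * (k * S) ^ 2 + 6 / c * ((C1 + 2 * M) * s) ^ 2 -
        k * ((C1 + 2 * M) * s * S) =
        6 / c * (c / 12 * (k * S) - (C1 + 2 * M) * s) ^ 2 := by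
      field_simp
      ring
    have : 0 ≤ 6 / c * (c / 12 * (k * S) - (C1 + 2 * M) * s) ^ 2 := by positivity
    linarith
  have h6 : c / 24 * (k * S) ^ 2 ≤ c / 2 * (k ^ 2 * T) := by
    have a1 : k ^ 2 * S ^ 2 ≤ k ^ 2 * (12 * T) := mul_le_mul_of_nonneg_left hST (sq_nonneg k)
    have a2 : c / 24 * (k ^ 2 * S ^ 2) ≤ c / 24 * (k ^ 2 * (12 * T)) :=
      mul_le_mul_of_nonneg_left a1 (by positivity)
    nlinarith
  have h7 : 6 / c * ((C1 + 2 * M) * s) ^ 2 ≤ 18 * (C1 + 2 * M) ^ 2 / c * p := by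
    have a1 : 6 / c * (C1 + 2 * M) ^ 2 * s ^ 2 ≤ 6 / c * (C1 + 2 * M) ^ 2 * (3 * p) :=
      mul_le_mul_of_nonneg_left hsp (by positivity)
    have e1 : 6 / c * (C1 + 2 * M) ^ 2 * (3 * p) = 18 * (C1 + 2 * M) ^ 2 / c * p := by ring
    have e2 : 6 / c * ((C1 + 2 * M) * s) ^ 2 = 6 / c * (C1 + 2 * M) ^ 2 * s ^ 2 := by ring
    linarith
  nlinarith

theorem sq_sum_three (v : Fin 3 → ℝ) : (∑ a, |v a|) ^ 2 ≤ 3 * ∑ a, v a ^ 2 := by
  simp only [Fin.sum_univ_three]
  have h0 := sq_abs (v 0)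
  have h1 := sq_abs (v 1)
  have h2 := sq_abs (v 2)
  nlinarith [sq_nonneg (|v 0| - |v 1|), sq_nonneg (|v 1| - |v 2|), sq_nonneg (|v 0| - |v 2|)]

theorem sq_sum_four (x : Fin 4 → ℝ) : (∑ m, x m) ^ 2 ≤ 4 * ∑ m, x m ^ 2 := by
  simp only [Fin.sum_univ_four]
  nlinarith [sq_nonneg (x 0 - x 1), sq_nonneg (x 0 - x 2), sq_nonneg (x 0 - x 3),
    sq_nonneg (x 1 - x 2), sq_nonneg (x 1 - x 3), sq_nonneg (x 2 - x 3)]

theorem sq_sum_twelve (v : Fin 4 → Fin 3 → ℝ) :
    (∑ m, ∑ a, |v m a|) ^ 2 ≤ 12 * ∑ m, ∑ a, v m a ^ 2 := by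
  refine (sq_sum_four _).trans ?_
  have h : ∑ m, (∑ a, |v m a|) ^ 2 ≤ ∑ m, 3 * ∑ a, v m a ^ 2 :=
    Finset.sum_le_sum fun m _ => sq_sum_three (v m)
  rw [← Finset.mul_sum] at h
  linarith

theorem sm_vecB {U : Set E4} (hU : IsOpen U) {A : E4 → Fin 4 → R3} (hA : ContDiffOn ℝ ∞ A U)
    {φ : E4 → R3} (hφ : ContDiffOn ℝ ∞ φ U) (l : Fin 4) :
    ContDiffOn ℝ ∞ (fun y => vecB A φ y l) U := by
  have hp : ∀ a, ContDiffOn ℝ ∞ (fun y => φ y a) U := fun a => contDiffOn_pi.mp hφ a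
  have hc : ∀ m a, ContDiffOn ℝ ∞ (fun y => cov A φ y m a) U := fun m a =>
    contDiffOn_pi.mp (sm_cov hU hA hφ m) a
  have hT : ∀ m n a, ContDiffOn ℝ ∞ (fun y => adjF (curv A y) m n a) U := fun m n a =>
    contDiffOn_pi.mp (sm_adjF hU hA m n) a
  have hw : ∀ b c, ContDiffOn ℝ ∞ (fun y => wedge3 (Pi.single l 1) (cm1 (cov A φ y) b)
      (cmp (adjF (curv A y)) c)) U := by
    intro b c
    unfold wedge3
    refine sm_wedge (fun m n => ?_) (fun m n => hT m n c)
    unfold wed cm1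
    exact (contDiffOn_const.mul (hc n b)).sub (contDiffOn_const.mul (hc m b))
  unfold vecB trip
  exact (((hp 0).mul ((hw 1 2).sub (hw 2 1))).add
        ((hp 1).mul ((hw 2 0).sub (hw 0 2)))).add
        ((hp 2).mul ((hw 0 1).sub (hw 1 0)))

theorem caccioppoli (A : E4 → Fin 4 → R3) (U : Set E4) (hU : IsOpen U) (hA : ContDiffOn ℝ ∞ A U)
    (hP : ∀ y ∈ U, PosDef (curv A y)) (K : Set E4) (hK : IsCompact K) (hKU : K ⊆ U) :
    ∃ K' : Set E4, IsCompact K' ∧ K' ⊆ U ∧ K ⊆ K' ∧ ∃ C : ℝ, 0 ≤ C ∧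
      ∀ φ : E4 → R3, ContDiffOn ℝ ∞ φ U →
        (∀ y ∈ U, Bundle.ClosedAt (Bundle.form A φ) y) →
        ∫ y in K, ∑ m, ∑ a, cov A φ y m a ^ 2 ≤ C * ∫ y in K', ∑ a, φ y a ^ 2 := by
  obtain ⟨κ, hκ, hκc, hκU, hκ01, V, hV, hKV, hV1⟩ := cutoff U K hU hK hKU
  set K' := tsupport κ with hK'
  have hK'c : IsCompact K' := hκc
  have hKK' : K ⊆ K' := by
    intro y hy
    refine subset_tsupport κ ?_
    rw [Function.mem_support, hV1 y (hKV hy)]
    exact one_ne_zero
  obtain ⟨c, hc, hcq⟩ := bound_quadB A U hU hA K' hK'c hκU (fun y hy => hP y (hκU hy))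
  obtain ⟨C1, hC1, hdiv⟩ := div_vecB A U hU hA K' hK'c hκU
  obtain ⟨B, hB, hb⟩ := exists_bound (κ := Fin 4 × Fin 4 × Fin 3) hK'c
    (f := fun i y => adjF (curv A y) i.1 i.2.1 i.2.2) fun i =>
    (contDiffOn_pi.mp (sm_adjF hU hA i.1 i.2.1) i.2.2).continuousOn.mono hκU
  have hpdκ : ∀ l, Continuous (fun y => pd l κ y) := fun l =>
    (hκ.continuous_fderiv (by simp)).clm_apply continuous_const
  obtain ⟨D, hD, hd⟩ := exists_bound (κ := Fin 4) hK'c
    (f := fun l y => pd l κ y) fun l => (hpdκ l).continuousOn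
  set M := 24 * D * B with hM
  have hM0 : 0 ≤ M := by positivity
  set C2 := 3 * C1 + 18 * (C1 + 2 * M) ^ 2 / c with hC2
  have hC20 : 0 ≤ C2 := by positivity
  refine ⟨K', hK'c, hκU, hKK', 2 / c * C2, by positivity, fun φ hφ hcl => ?_⟩
  have hvs : ∀ l, ContDiffOn ℝ ∞ (fun y => vecB A φ y l) U := fun l => sm_vecB hU hA hφ l
  set g : Fin 4 → E4 → ℝ := fun l y => κ y ^ 2 * vecB A φ y l with hg
  have hκ0 : ∀ y ∉ K', κ y = 0 := fun y hy => image_eq_zero_of_notMem_tsupport hy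
  have hg0 : ∀ l, ∀ y ∉ K', g l y = 0 := by
    intro l y hy
    simp only [hg, hκ0 y hy]
    ring
  have hgs : ∀ l, ContDiff ℝ 1 (g l) := fun l =>
    contDiff_of_zero hU hK'c.isClosed hκU (g l)
      (((hκ.contDiffOn.pow 2).mul (hvs l)).of_le (by simp)) (hg0 l)
  have hgc : ∀ l, HasCompactSupport (g l) := fun l =>
    HasCompactSupport.of_support_subset_isCompact hK'c fun y hy => by
      by_contra h
      exact hy (hg0 l y h)
  have hgi : ∀ l, ∫ y, pd l (g l) y = 0 := fun l => integral_fderiv_eq_zero (hgs l) (hgc l) _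
  have hpg : ∀ l, Continuous (fun y => pd l (g l) y) := fun l =>
    ((hgs l).continuous_fderiv one_ne_zero).clm_apply continuous_const
  have hpg0 : ∀ l, ∀ y ∉ K', pd l (g l) y = 0 := by
    intro l y hy
    have : g l =ᶠ[𝓝 y] fun _ => (0 : ℝ) := by
      filter_upwards [hK'c.isClosed.isOpen_compl.mem_nhds hy] with z hz using hg0 l z hz
    unfold pd
    rw [this.fderiv_eq]
    simp
  have hpgi : ∀ l, Integrable (fun y => pd l (g l) y) := fun l =>
    (hpg l).integrable_of_hasCompactSupport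
      (HasCompactSupport.of_support_subset_isCompact hK'c fun y hy => by
        by_contra h
        exact hy (hpg0 l y h))
  set f1 : E4 → ℝ := fun y => ∑ l, pd l (g l) y with hf1
  have hf1i : Integrable f1 := integrable_finsetSum _ fun l _ => hpgi l
  have hf10 : ∫ y in K', f1 y = 0 := by
    rw [setIntegral_eq_integral_of_forall_compl_eq_zero]
    · rw [hf1, integral_finsetSum _ fun l _ => hpgi l]
      exact Finset.sum_eq_zero fun l _ => hgi l
    · intro y hy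
      exact Finset.sum_eq_zero fun l _ => hpg0 l y hy
  set T : E4 → ℝ := fun y => ∑ m, ∑ a, cov A φ y m a ^ 2 with hT
  set p : E4 → ℝ := fun y => ∑ a, φ y a ^ 2 with hp
  have hTc : ContinuousOn T U := continuousOn_finsetSum _ fun m _ =>
    continuousOn_finsetSum _ fun a _ =>
      ((contDiffOn_pi.mp (sm_cov hU hA hφ m) a).continuousOn).pow 2
  have hpc : ContinuousOn p U := continuousOn_finsetSum _ fun a _ =>
    ((contDiffOn_pi.mp hφ a).continuousOn).pow 2
  have hT0 : ∀ y, 0 ≤ T y := fun y => Finset.sum_nonneg fun m _ =>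
    Finset.sum_nonneg fun a _ => sq_nonneg _
  have hkT : IntegrableOn (fun y => κ y ^ 2 * T y) K' :=
    (((hκ.continuous.pow 2).continuousOn).mul (hTc.mono hκU)).integrableOn_compact hK'c
  have hpI : IntegrableOn p K' := (hpc.mono hκU).integrableOn_compact hK'c
  -- the pointwise inequality
  have key : ∀ y ∈ K', c / 2 * (κ y ^ 2 * T y) ≤ f1 y + C2 * p y := by
    intro y hy
    have hyU := hκU hy
    have hdv : ∀ l, DifferentiableAt ℝ (fun z => vecB A φ z l) y := fun l =>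
      g_sm_diff hU (hvs l) hyU
    have hdκ : DifferentiableAt ℝ κ y := (hκ.differentiable (by simp)) y
    have hdκ2 : DifferentiableAt ℝ (fun z => κ z ^ 2) y := hdκ.pow 2
    have epd : ∀ l, pd l (g l) y = 2 * κ y * (pd l κ y * vecB A φ y l) +
        κ y ^ 2 * pd l (fun z => vecB A φ z l) y := by
      intro l
      have e1 := ph_pd_mul hdκ2 (hdv l) l
      have e2 : pd l (fun z => κ z ^ 2) y = 2 * κ y * pd l κ y := by
        have e3 := ph_pd_mul hdκ hdκ l
        have e4 : (fun z => κ z ^ 2) = fun z => κ z * κ z := by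
          funext z; ring
        rw [e4, e3]
        ring
      rw [hg]
      simp only
      rw [e1, e2]
      ring
    have ef : f1 y = κ y ^ 2 * (∑ l, pd l (fun z => vecB A φ z l) y) +
        2 * κ y * ∑ l, pd l κ y * vecB A φ y l := by
      simp only [hf1, epd, Finset.sum_add_distrib, ← Finset.mul_sum]
      ring
    rw [ef]
    set s := ∑ a, |φ y a| with hs
    set S := ∑ m, ∑ a, |cov A φ y m a| with hS
    have hs0 : 0 ≤ s := Finset.sum_nonneg fun a _ => abs_nonneg _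
    have hS0 : 0 ≤ S := Finset.sum_nonneg fun m _ => Finset.sum_nonneg fun a _ => abs_nonneg _
    have hq := hcq y hy (cov A φ y)
      (constr_of_closed A φ U hU hA hφ y hyU (hcl y hyU))
    have hdd := (abs_le.1 (hdiv φ hφ y hy)).1
    refine cac_point (hκ01 y).1 (hκ01 y).2 hc hC1 hM0 hs0 hS0 (sq_sum_three (φ y))
      (sq_sum_twelve (cov A φ y)) ?_ ?_
    · linarith
    · have hv : ∀ l, |vecB A φ y l| ≤ 6 * B * s * S := fun l =>
        trip_le hB (single_le l) fun q r a => hb (q, r, a) y hy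
      have hl : ∀ l, |pd l κ y * vecB A φ y l| ≤ D * (6 * B * s * S) := by
        intro l
        rw [abs_mul]
        exact mul_le_mul (hd l y hy) (hv l) (abs_nonneg _) hD
      refine (Finset.abs_sum_le_sum_abs _ _).trans ?_
      have h7 := Finset.sum_le_sum fun l (_ : l ∈ (Finset.univ : Finset (Fin 4))) => hl l
      refine h7.trans (le_of_eq ?_)
      rw [Finset.sum_const, Finset.card_univ, Fintype.card_fin, hM]
      simp only [nsmul_eq_mul]
      push_cast
      ring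
  have hint : c / 2 * ∫ y in K', κ y ^ 2 * T y ≤ C2 * ∫ y in K', p y := by
    have h1 : ∫ y in K', c / 2 * (κ y ^ 2 * T y) ≤ ∫ y in K', (f1 y + C2 * p y) :=
      setIntegral_mono_on (hkT.const_mul _) (hf1i.integrableOn.add (hpI.const_mul C2))
        hK'c.measurableSet key
    rw [integral_const_mul, integral_add hf1i.integrableOn (hpI.const_mul C2), hf10,
      integral_const_mul, zero_add] at h1
    exact h1
  have hKint : ∫ y in K, T y ≤ ∫ y in K', κ y ^ 2 * T y := by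
    have e1 : ∫ y in K, T y = ∫ y in K, κ y ^ 2 * T y := by
      refine setIntegral_congr_fun hK.measurableSet fun y hy => ?_
      show T y = κ y ^ 2 * T y
      rw [hV1 y (hKV hy)]
      ring
    rw [e1]
    refine setIntegral_mono_set hkT ?_ (Filter.Eventually.of_forall hKK')
    exact Filter.Eventually.of_forall fun y => mul_nonneg (sq_nonneg _) (hT0 y)
  have h2 : ∫ y in K', κ y ^ 2 * T y ≤ 2 / c * C2 * ∫ y in K', p y := by
    have h3 := mul_le_mul_of_nonneg_left hint (by positivity : (0 : ℝ) ≤ 2 / c)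
    have e1 : 2 / c * (c / 2 * ∫ y in K', κ y ^ 2 * T y) = ∫ y in K', κ y ^ 2 * T y := by
      field_simp
    rw [e1] at h3
    linarith
  exact hKint.trans h2

end

end Pool.Agent.Helper8.UC
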