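import Pool.Agent.Helper8.DC.QB

/-!
The local elliptic estimate: definitions.
-/

set_option autoImplicit false

open scoped Manifold ContDiff
open MeasureTheory

namespace Pool.Agent.Helper8.UC

open Pool.Agent.Helper8.DC

noncomputable section

/-- The `ℝ³`-valued 2-form `adj(M) F`. -/
def adjF (F : Fin 4 → Fin 4 → R3) : Fin 4 → Fin 4 → R3 :=
  fun l m => (gram F).adjugate.mulVec (F l m)

/-- The vector density of the 3-form `∑ ε_abc φ_a ∇φ_b ∧ (adj(M) F)_c`. -/
def vecB (A : E4 → Fin 4 → R3) (φ : E4 → R3) (y : E4) (l : Fin 4) : ℝ :=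
  trip (φ y) (Pi.single l 1) (cov A φ y) (adjF (curv A y))

end

end Pool.Agent.Helper8.UC
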