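import Pool.Agent.Helper8.UC.Defs
import Pool.Agent.Helper8.UC.Loc
import Pool.Agent.Helper64.DC.Stokes

/-!
Statements of the pieces (not imported by anything).
-/

set_option autoImplicit false

open scoped Manifold ContDiff Topology
open MeasureTheory

namespace Pool.Agent.Helper8.UC.Frame

open Pool.Agent.Helper8.DC Pool.Agent.Helper8.UC

noncomputable section

/-! U1. Positivity. Copy `quad_diag_strict` and `quad_pos` (Helper8/DC/QA.lean). In the diagonal
frame (`gram F' = diag(d)`) one has `adjF F' _ _ a = (product of the other two d) • F'_a`, and with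
`x_a`, `T` of that proof `quad α (adjF F') = -8 (x0 T x1 + x1 T x2 + x2 T x0)
= 8 (x0 T x0 + x1 T x1 + x0 T x1)` (`x2 = -(x0 + x1)`): `qa2_final` with `m0 = m1 = c = 1`.
Rotation: `adjugate (R M Rᵀ) = R adjugate M Rᵀ`, so `adjF (R F) = R (adjF F)`, and `quad_rot`. -/
theorem quadB_pos (F : Fin 4 → Fin 4 → R3) (hs : Skew F) (hF : PosDef F) (α : Fin 4 → R3)
    (hα : Constr α F) (h0 : α ≠ 0) : 0 < quad α (adjF F) := sorry

/-! U2. Compactness (as `bound_rest`, `bound_quad` in Helper8/DC/QB.lean, from U1). -/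
theorem bound_quadB (A : E4 → Fin 4 → R3) (U : Set E4) (hU : IsOpen U) (hA : ContDiffOn ℝ ∞ A U)
    (K : Set E4) (hK : IsCompact K) (hKU : K ⊆ U) (hP : ∀ y ∈ K, PosDef (curv A y)) :
    ∃ c : ℝ, 0 < c ∧ ∀ y ∈ K, ∀ α : Fin 4 → R3, Constr α (curv A y) →
      c * ∑ m, ∑ a, α m a ^ 2 ≤ quad α (adjF (curv A y)) := sorry

/-! U3. Divergence up to lower order. `∂_l` of `vecB`: the second derivatives of `φ` cancel
(`adjF (curv A y)` is skew in `l, m`); with `cov_l φ = ∂_l φ + A_l × φ` the terms with two first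
derivatives of `φ` are `quad (cov A φ y) (adjF (curv A y))` up to terms with at least one factor `φ`
without derivative. All coefficients (`A`, its first and second derivatives, `curv`, `adjF`) are
bounded on `K`. -/
theorem div_vecB (A : E4 → Fin 4 → R3) (U : Set E4) (hU : IsOpen U) (hA : ContDiffOn ℝ ∞ A U)
    (K : Set E4) (hK : IsCompact K) (hKU : K ⊆ U) :
    ∃ C : ℝ, 0 ≤ C ∧ ∀ φ : E4 → R3, ContDiffOn ℝ ∞ φ U → ∀ y ∈ K,
      |∑ l, pd l (fun z => vecB A φ z l) y - quad (cov A φ y) (adjF (curv A y))| ≤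
        C * (∑ a, |φ y a|) * (∑ a, |φ y a| + ∑ m, ∑ a, |cov A φ y m a|) := sorry

/-! U4. The elliptic estimate (Caccioppoli inequality) for closed forms. Cutoff `κ` (`cutoff`,
Helper8/DC/QJ.lean: `κ = 1` on `K`, `K' = tsupport κ`), the divergence theorem for `κ ^ 2 * vecB`
(`Pool.Agent.Helper64.DC.integral_trace_fderiv`, or `integral_fderiv_eq_zero` for each component),
U2, U3, `|vecB| ≤ C |φ| |∇φ|`; `Constr` from closedness: `constr_of_closed` (Helper8/DC). -/
theorem caccioppoli (A : E4 → Fin 4 → R3) (U : Set E4) (hU : IsOpen U) (hA : ContDiffOn ℝ ∞ A U)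
    (hP : ∀ y ∈ U, PosDef (curv A y)) (K : Set E4) (hK : IsCompact K) (hKU : K ⊆ U) :
    ∃ K' : Set E4, IsCompact K' ∧ K' ⊆ U ∧ K ⊆ K' ∧ ∃ C : ℝ, 0 ≤ C ∧
      ∀ φ : E4 → R3, ContDiffOn ℝ ∞ φ U →
        (∀ y ∈ U, Bundle.ClosedAt (Bundle.form A φ) y) →
        ∫ y in K, ∑ m, ∑ a, cov A φ y m a ^ 2 ≤ C * ∫ y in K', ∑ a, φ y a ^ 2 := sorry

/-! U5. Stokes for square integrable families on a covering. Copy `swap` and `core` of
Helper64/DC/Stokes.lean: replace `W i` by the sum over `x` (pointwise `∑' x`; the reindexing by the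
permutation `σ i j y` is `Equiv.tsum_eq`, no summability needed there), and exchange integral and
sum with `integral_tsum` (`hsum`). `chart_div` can be used as it is for each `x`. -/
theorem core_cov {X : Type} [TopologicalSpace X] [CompactSpace X] [ChartedSpace E4 X]
    [IsManifold 𝓘(ℝ, E4) ∞ X] {ι : Type} [Fintype ι] (c : ι → OpenPartialHomeomorph X E4)
    (hc : ∀ i, c i ∈ IsManifold.maximalAtlas 𝓘(ℝ, E4) ∞ X)
    (ρ : ι → X → ℝ) (hρ : ∀ i, ContMDiff 𝓘(ℝ, E4) 𝓘(ℝ, ℝ) ∞ (ρ i))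
    (hρs : ∀ i, tsupport (ρ i) ⊆ (c i).source) (hρ1 : ∀ x, ∑ i, ρ i x = 1)
    {S : Type} [Countable S] (σ : ι → ι → E4 → Equiv.Perm S)
    (W : ι → S → E4 → E4) (hW : ∀ i x, ContDiffOn ℝ 1 (W i x) (c i).target)
    (hcompat : ∀ i j, ∀ y ∈ (c j).target, (c j).symm y ∈ (c i).source →
      0 < (fderiv ℝ (c i ∘ (c j).symm) y).det ∧ ∀ x,
      fderiv ℝ (c i ∘ (c j).symm) y (W j x y)
        = (fderiv ℝ (c i ∘ (c j).symm) y).det • W i (σ i j y x) (c i ((c j).symm y)))
    (hsum : ∀ i, ∀ K ⊆ (c i).target, IsCompact K → Summable fun x => ∫ y in K, ‖W i x y‖) :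
    (∀ i, Summable fun x =>
      ∫ y in (c i).target, ρ i ((c i).symm y) * Pool.Agent.Helper64.DC.dvg (W i x) y) ∧
    ∑ i, ∑' x, ∫ y in (c i).target, ρ i ((c i).symm y) * Pool.Agent.Helper64.DC.dvg (W i x) y = 0 :=
  sorry

end

end Pool.Agent.Helper8.UC.Frame
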